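import Pool.Agent.K7.H87.FJ6.Lek
import Pool.Agent.Y417.FJ.Am
import Pool.Agent.Y529.FJ.Ext
import Pool.Agent.Y961.FJ.Perm

/-!
# Removing a relation from an Artin group
-/

set_option autoImplicit false

namespace Run7.h161.AK

open Pool.Agent.K7.H87.FJ6
open Pool.Agent.Y110.FJ
open Pool.Agent.Helper741 (alt)

variable {T : Type}

theorem alt_zero' {G : Type*} [Monoid G] (a b : G) : alt a b 0 = 1 := by
  simp [alt]

theorem map_alt' {G H : Type*} [Monoid G] [Monoid H] (f : G →* H) (a b : G) (m : ℕ) :
    f (alt a b m) = alt (f a) (f b) m := by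
  unfold alt
  rw [map_list_prod, List.map_map]
  congr 1
  apply List.map_congr_left
  intro t _
  show f (if Even t then a else b) = if Even t then f a else f b
  split_ifs <;> rfl

/-- the natural map for equal matrices is injective -/
theorem inc_inj' {A : Type} [Finite T] {N : CoxeterMatrix A} {M1 : CoxeterMatrix T} {q : A → ℕ}
    {p : T → ℕ} (h : Adm M1 p) (ι : A → T) (hι : Function.Injective ι)
    (hN : ∀ x y, N x y = M1 (ι x) (ι y)) (hq : ∀ x, q x = p (ι x))
    (F : Sh N q →* Sh M1 p) (hF : ∀ x, F (Sh.gen N q x) = Sh.gen M1 p (ι x)) :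
    Function.Injective F := by
  have h1 : N = pull M1 ι hι := by
    apply CoxeterMatrix.ext
    ext x y
    exact hN x y
  have h2 : q = p ∘ ι := funext hq
  subst h1 h2
  have h3 : F = inc M1 p ι hι := Sh.hom_ext fun x => by rw [hF, inc_gen]
  rw [h3]
  exact inc_injective h ι hι

/-- the subgroup generated by some of the generators -/
def par (M : CoxeterMatrix T) (p : T → ℕ) (J : Set T) : Subgroup (Sh M p) :=
  Subgroup.closure (Sh.gen M p '' J)

/-- restriction to a subset -/
abbrev res (M : CoxeterMatrix T) (J : Set T) : CoxeterMatrix J :=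
  pull M (Subtype.val : J → T) Subtype.val_injective

/-- the inclusion -/
abbrev ir (M : CoxeterMatrix T) (p : T → ℕ) (J : Set T) :
    Sh (res M J) (p ∘ Subtype.val) →* Sh M p :=
  inc M p (Subtype.val : J → T) Subtype.val_injective

theorem ir_range (M : CoxeterMatrix T) (p : T → ℕ) (J : Set T) : (ir M p J).range = par M p J := by
  apply le_antisymm
  · rintro _ ⟨x, rfl⟩
    induction x using Sh.induction with
    | one => rw [map_one]; exact one_mem _
    | gen i => rw [inc_gen]; exact Subgroup.subset_closure ⟨i.1, i.2, rfl⟩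
    | mul x y hx hy => rw [map_mul]; exact mul_mem hx hy
    | inv x hx => rw [map_inv]; exact inv_mem hx
  · unfold par
    rw [Subgroup.closure_le]
    rintro _ ⟨j, hj, rfl⟩
    exact ⟨Sh.gen _ _ ⟨j, hj⟩, inc_gen _ _ _ _ _⟩

theorem gen_mem {M : CoxeterMatrix T} {p : T → ℕ} {J : Set T} {i : T} (hi : i ∈ J) :
    Sh.gen M p i ∈ par M p J := Subgroup.subset_closure ⟨i, hi, rfl⟩

open Classical in
/-- the Artin group is an amalgamated product if there is no relation between `s` and `t` -/
theorem amg (M : CoxeterMatrix T) (p : T → ℕ) {s t : T} (hst : s ≠ t) (h0 : M s t = 0) :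
    Amg (par M p {i | i ≠ s}) (par M p {i | i ≠ t}) (par M p {i | i ≠ s ∧ i ≠ t}) where
  le_left := Subgroup.closure_mono (Set.image_mono fun _ h => h.1)
  le_right := Subgroup.closure_mono (Set.image_mono fun _ h => h.2)
  gen := by
    rw [eq_top_iff, ← Sh.closure_range_gen, Subgroup.closure_le]
    rintro _ ⟨i, rfl⟩
    by_cases hi : i = s
    · exact Subgroup.mem_sup_right (gen_mem fun h => hst (hi.symm.trans h))
    · exact Subgroup.mem_sup_left (gen_mem hi)
  univ := by
    intro H _ f g hfg
    have h0' : M t s = 0 := by rw [M.symmetric]; exact h0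
    let F : T → H := fun i => if h : i = s then g ⟨Sh.gen M p i, gen_mem (fun h' => hst (h.symm.trans h'))⟩
      else f ⟨Sh.gen M p i, gen_mem h⟩
    have hFf : ∀ i (h : i ≠ s), F i = f ⟨Sh.gen M p i, gen_mem h⟩ := fun i h => dif_neg h
    have hFg : ∀ i (h : i ≠ t), F i = g ⟨Sh.gen M p i, gen_mem h⟩ := by
      intro i h
      by_cases hi : i = s
      · exact dif_pos hi
      · rw [hFf i hi]
        exact hfg _ (gen_mem ⟨hi, h⟩)
    have h1 : ∀ i j, alt (F i) (F j) (M i j) = alt (F j) (F i) (M i j) := by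
      intro i j
      by_cases hi : i ≠ s ∧ j ≠ s
      · rw [hFf i hi.1, hFf j hi.2, ← map_alt', ← map_alt']
        congr 1
        apply Subtype.ext
        have e1 := map_alt' (par M p {i | i ≠ s}).subtype ⟨Sh.gen M p i, gen_mem hi.1⟩
          ⟨Sh.gen M p j, gen_mem hi.2⟩ (M i j)
        have e2 := map_alt' (par M p {i | i ≠ s}).subtype ⟨Sh.gen M p j, gen_mem hi.2⟩
          ⟨Sh.gen M p i, gen_mem hi.1⟩ (M i j)
        exact e1.trans ((Sh.rel i j).trans e2.symm)
      · by_cases hj : i ≠ t ∧ j ≠ t
        · rw [hFg i hj.1, hFg j hj.2, ← map_alt', ← map_alt']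
          congr 1
          apply Subtype.ext
          have e1 := map_alt' (par M p {i | i ≠ t}).subtype ⟨Sh.gen M p i, gen_mem hj.1⟩
            ⟨Sh.gen M p j, gen_mem hj.2⟩ (M i j)
          have e2 := map_alt' (par M p {i | i ≠ t}).subtype ⟨Sh.gen M p j, gen_mem hj.2⟩
            ⟨Sh.gen M p i, gen_mem hj.1⟩ (M i j)
          exact e1.trans ((Sh.rel i j).trans e2.symm)
        · have h3 : M i j = 0 := by
            by_cases his : i = s
            · by_cases hjt : j = t
              · rw [his, hjt, h0]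
              · exact absurd ⟨fun h => hst (his.symm.trans h), hjt⟩ hj
            · by_cases hjs : j = s
              · by_cases hit : i = t
                · rw [hjs, hit, h0']
                · exact absurd ⟨hit, fun h => hst (hjs.symm.trans h)⟩ hj
              · exact absurd ⟨his, hjs⟩ hi
          rw [h3, alt_zero', alt_zero']
    have h2 : ∀ i, F i ^ p i = 1 := by
      intro i
      by_cases hi : i = s
      · have hi' : i ≠ t := fun h => hst (hi.symm.trans h)
        rw [hFg i hi', ← map_pow]
        have : (⟨Sh.gen M p i, gen_mem hi'⟩ : par M p {i | i ≠ t}) ^ p i = 1 :=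
          Subtype.ext (Sh.pow i)
        rw [this, map_one]
      · rw [hFf i hi, ← map_pow]
        have : (⟨Sh.gen M p i, gen_mem hi⟩ : par M p {i | i ≠ s}) ^ p i = 1 :=
          Subtype.ext (Sh.pow i)
        rw [this, map_one]
    refine ⟨Sh.lift F h1 h2, ?_, ?_⟩
    · rintro ⟨a, ha⟩
      induction ha using Subgroup.closure_induction with
      | mem x hx =>
        obtain ⟨i, hi, rfl⟩ := hx
        show Sh.lift F h1 h2 (Sh.gen M p i) = _
        rw [Sh.lift_gen, hFf i hi]
      | one =>
        show Sh.lift F h1 h2 1 = f 1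
        rw [map_one, map_one]
      | mul x y hx hy ihx ihy =>
        show Sh.lift F h1 h2 (x * y) = f (⟨x, hx⟩ * ⟨y, hy⟩)
        rw [map_mul, map_mul, ← ihx, ← ihy]
      | inv x hx ihx =>
        show Sh.lift F h1 h2 x⁻¹ = f (⟨x, hx⟩⁻¹)
        rw [map_inv, map_inv, ← ihx]
    · rintro ⟨a, ha⟩
      induction ha using Subgroup.closure_induction with
      | mem x hx =>
        obtain ⟨i, hi, rfl⟩ := hx
        show Sh.lift F h1 h2 (Sh.gen M p i) = _
        rw [Sh.lift_gen, hFg i hi]
      | one =>
        show Sh.lift F h1 h2 1 = g 1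
        rw [map_one, map_one]
      | mul x y hx hy ihx ihy =>
        show Sh.lift F h1 h2 (x * y) = g (⟨x, hx⟩ * ⟨y, hy⟩)
        rw [map_mul, map_mul, ← ihx, ← ihy]
      | inv x hx ihx =>
        show Sh.lift F h1 h2 x⁻¹ = g (⟨x, hx⟩⁻¹)
        rw [map_inv, map_inv, ← ihx]

variable {C : ∀ (G : Type) [Group G], Prop}

/-- removal of one relation -/
theorem remove (hC : ClosedE C) [Finite T] {M M1 : CoxeterMatrix T} {p : T → ℕ} (hp : Adm M1 p)
    {s t : T} (hst : s ≠ t) (h0 : M s t = 0)
    (h : ∀ i j, ¬ (i = s ∧ j = t) → ¬ (i = t ∧ j = s) → M i j = M1 i j)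
    (hM1 : C (Sh M1 p)) : C (Sh M p) := by
  have h0' : M t s = 0 := by rw [M.symmetric]; exact h0
  have h1 : ∀ i j, alt (Sh.gen M1 p i) (Sh.gen M1 p j) (M i j) =
      alt (Sh.gen M1 p j) (Sh.gen M1 p i) (M i j) := by
    intro i j
    by_cases h2 : i = s ∧ j = t
    · rw [h2.1, h2.2, h0, alt_zero', alt_zero']
    · by_cases h3 : i = t ∧ j = s
      · rw [h3.1, h3.2, h0', alt_zero', alt_zero']
      · rw [h i j h2 h3]
        exact Sh.rel i j
  let f : Sh M p →* Sh M1 p := Sh.lift (Sh.gen M1 p) h1 (fun i => Sh.pow i)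
  have hf : ∀ i, f (Sh.gen M p i) = Sh.gen M1 p i := fun i => Sh.lift_gen _ _ _ _
  have key : ∀ J : Set T, (∀ i ∈ J, ∀ j ∈ J, M i j = M1 i j) → ∀ a ∈ par M p J, f a = 1 → a = 1 := by
    intro J hJ a ha hfa
    rw [← ir_range] at ha
    obtain ⟨x, rfl⟩ := ha
    have hinj : Function.Injective (f.comp (ir M p J)) :=
      inc_inj' hp (Subtype.val : J → T) Subtype.val_injective (fun x y => hJ x.1 x.2 y.1 y.2)
        (fun _ => rfl) _ (fun x => by
          show f (inc M p (Subtype.val : J → T) Subtype.val_injective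
            (Sh.gen (res M J) (p ∘ Subtype.val) x)) = _
          rw [inc_gen, hf])
    have hx : x = 1 := hinj (by rw [MonoidHom.comp_apply, hfa, map_one])
    rw [hx, map_one]
  refine Pool.Agent.Y417.FJ.t_am (Pool.Agent.Y961.FJ.t_perm Pool.Agent.Y529.FJ.t_ext) C hC
    (Sh M p) (Sh M1 p) _ _ _ (amg M p hst h0) f ?_ ?_ hM1
  · exact key _ fun i hi j hj => h i j (fun h' => hi h'.1) (fun h' => hj h'.2)
  · exact key _ fun i hi j hj => h i j (fun h' => hj h'.2) (fun h' => hi h'.1)

open Classical in
/-- one entry of a Coxeter matrix is changed -/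
noncomputable def upd (M : CoxeterMatrix T) (s t : T) (hst : s ≠ t) (l : ℕ) (hl : l ≠ 1) :
    CoxeterMatrix T where
  M := Matrix.of fun i j => if (i = s ∧ j = t) ∨ (i = t ∧ j = s) then l else M i j
  isSymm := by
    ext i j
    simp only [Matrix.transpose_apply, Matrix.of_apply]
    have h1 : ((j = s ∧ i = t) ∨ (j = t ∧ i = s)) ↔ ((i = s ∧ j = t) ∨ (i = t ∧ j = s)) := by tauto
    rw [M.symmetric j i]
    simp only [h1]
  diagonal i := by
    simp only [Matrix.of_apply]
    rw [if_neg, M.diagonal]
    rintro (⟨h1, h2⟩ | ⟨h1, h2⟩)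
    · exact hst (h1.symm.trans h2)
    · exact hst (h2.symm.trans h1)
  off_diagonal i j h := by
    simp only [Matrix.of_apply]
    split_ifs
    · exact hl
    · exact M.off_diagonal i j h

theorem upd_apply (M : CoxeterMatrix T) (s t : T) (hst : s ≠ t) (l : ℕ) (hl : l ≠ 1) (i j : T)
    (h : (i = s ∧ j = t) ∨ (i = t ∧ j = s)) : upd M s t hst l hl i j = l := if_pos h

theorem upd_apply' (M : CoxeterMatrix T) (s t : T) (hst : s ≠ t) (l : ℕ) (hl : l ≠ 1) (i j : T)
    (h : ¬ ((i = s ∧ j = t) ∨ (i = t ∧ j = s))) : upd M s t hst l hl i j = M i j := if_neg h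

/-- **removal of relations** -/
theorem remove_all (hC : ClosedE C) [Finite T] {M' : CoxeterMatrix T} {p : T → ℕ} (hp : Adm M' p)
    (hM' : C (Sh M' p)) : ∀ (n : ℕ) (M : CoxeterMatrix T), (∀ i j, M i j = M' i j ∨ M i j = 0) →
      {q : T × T | M q.1 q.2 ≠ M' q.1 q.2}.ncard ≤ n → C (Sh M p) := by
  intro n
  induction n with
  | zero =>
    intro M hM hn
    have h1 : {q : T × T | M q.1 q.2 ≠ M' q.1 q.2} = ∅ :=
      (Set.ncard_eq_zero (Set.toFinite _)).1 (Nat.le_zero.1 hn)
    have h2 : M = M' := by
      apply CoxeterMatrix.ext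
      ext i j
      by_contra hne
      have : (i, j) ∈ {q : T × T | M q.1 q.2 ≠ M' q.1 q.2} := hne
      rw [h1] at this
      exact this
    rw [h2]
    exact hM'
  | succ n ih =>
    intro M hM hn
    by_cases hex : ∃ s t, M s t ≠ M' s t
    · obtain ⟨s, t, hne⟩ := hex
      have h0 : M s t = 0 := (hM s t).resolve_left hne
      have hst : s ≠ t := by
        rintro rfl
        rw [M.diagonal] at h0
        exact one_ne_zero h0
      have hl : M' s t ≠ 1 := M'.off_diagonal s t hst
      have hM1 : ∀ i j, upd M s t hst (M' s t) hl i j = M' i j ∨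
          upd M s t hst (M' s t) hl i j = 0 := by
        intro i j
        by_cases h : (i = s ∧ j = t) ∨ (i = t ∧ j = s)
        · left
          rw [upd_apply _ _ _ _ _ _ _ _ h]
          rcases h with ⟨rfl, rfl⟩ | ⟨rfl, rfl⟩
          · rfl
          · exact M'.symmetric _ _
        · rw [upd_apply' _ _ _ _ _ _ _ _ h]
          exact hM i j
      have hcard : {q : T × T | upd M s t hst (M' s t) hl q.1 q.2 ≠ M' q.1 q.2}.ncard ≤ n := by
        have hlt : {q : T × T | upd M s t hst (M' s t) hl q.1 q.2 ≠ M' q.1 q.2}.ncard <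
            {q : T × T | M q.1 q.2 ≠ M' q.1 q.2}.ncard := by
          apply Set.ncard_lt_ncard _ (Set.toFinite _)
          constructor
          · rintro ⟨i, j⟩ hq
            have hq' : upd M s t hst (M' s t) hl i j ≠ M' i j := hq
            show M i j ≠ M' i j
            by_cases h : (i = s ∧ j = t) ∨ (i = t ∧ j = s)
            · exfalso
              apply hq'
              rw [upd_apply _ _ _ _ _ _ _ _ h]
              rcases h with ⟨rfl, rfl⟩ | ⟨rfl, rfl⟩
              · rfl
              · exact M'.symmetric _ _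
            · rw [upd_apply' _ _ _ _ _ _ _ _ h] at hq'
              exact hq'
          · intro hsub
            have h1 : (s, t) ∈ {q : T × T | M q.1 q.2 ≠ M' q.1 q.2} := hne
            have h2 := hsub h1
            have h3 : upd M s t hst (M' s t) hl s t ≠ M' s t := h2
            exact h3 (upd_apply _ _ _ _ _ _ _ _ (Or.inl ⟨rfl, rfl⟩))
        omega
      have hC1 := ih (upd M s t hst (M' s t) hl) hM1 hcard
      have hadm : Adm (upd M s t hst (M' s t) hl) p := by
        refine ⟨hp.even, fun i j hij => ?_⟩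
        rcases hM1 i j with h | h
        · rw [h] at hij
          exact hp.odd i j hij
        · rw [h] at hij
          simp at hij
      refine remove hC hadm hst h0 (fun i j h1 h2 => ?_) hC1
      rw [upd_apply' _ _ _ _ _ _ _ _ (fun h => h.elim h1 h2)]
    · push Not at hex
      have h2 : M = M' := by
        apply CoxeterMatrix.ext
        ext i j
        exact hex i j
      rw [h2]
      exact hM'

end Run7.h161.AK
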