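import Pool.Agent.Run7.h161.AK.Main

/-!
# Removal of relations, in arbitrary rank
-/

set_option autoImplicit false

namespace Run7.h161.AK

open Pool.Agent.K7.H87.FJ6
open Pool.Agent.Y110.FJ
open Pool.Agent.Y462.SS (Closed)

variable {C : ∀ (G : Type) [Group G], Prop}

/-- directed unions -/
theorem of_closure (hC : Closed C) {G : Type} [Group G]
    (h : ∀ s : Finset G, C (Subgroup.closure (s : Set G))) : C G := by
  classical
  refine hC.colim (Finset G) (fun i j => ⟨i ∪ j, Finset.subset_union_left, Finset.subset_union_right⟩)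
    (fun s => Subgroup.closure (s : Set G))
    (fun i j hij => Subgroup.inclusion (Subgroup.closure_mono (Finset.coe_subset.2 hij))) G
    (fun i => Subgroup.subtype _) (fun i _ x => rfl) (fun i j k _ _ x => rfl) (fun i j _ x => rfl)
    (fun y => ⟨{y}, ⟨y, Subgroup.subset_closure (by simp)⟩, rfl⟩) (fun i x hx => ?_) h
  exact ⟨i, le_rfl, Subtype.ext hx⟩

/-- **removal of relations** -/
theorem remove_arb (hC : ClosedE C) {q : ℕ} (hq : Even q) {B : Type}
    (M M' : CoxeterMatrix B) (h : ∀ i j, M i j = M' i j ∨ M i j = 0)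
    (hM' : C (Sh M' (fun _ => q))) : C (Sh M (fun _ => q)) := by
  refine of_closure hC.base fun s => ?_
  obtain ⟨J, hJ, hsJ⟩ : ∃ J : Set B, J.Finite ∧ ∀ x ∈ (s : Set (Sh M (fun _ => q))),
      x ∈ (ir M (fun _ => q) J).range := by
    let e : Sh M (fun _ => q) ≃* (⊤ : Subgroup (Sh M (fun _ => q))) := Subgroup.topEquiv.symm
    obtain ⟨J, hJ, h1⟩ := ex_supp_fin e s.finite_toSet (fun x _ => Subgroup.mem_top x)
    refine ⟨J, hJ, fun x hx => ?_⟩
    refine (Subgroup.closure_le _).2 ?_ (h1 x hx)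
    rintro _ ⟨b, hb, rfl⟩
    exact ⟨Sh.gen (res M J) ((fun _ => q) ∘ Subtype.val) ⟨b, hb⟩, inc_gen _ _ _ _ _⟩
  have : Finite J := hJ
  have h1 : C (Sh (res M' J) (fun _ => q)) :=
    hC.base.of_injective _ _ (ir M' (fun _ => q) J) (ir_injective (adm_const M' hq) hJ) hM'
  have h2 : C (Sh (res M J) (fun _ => q)) :=
    remove_fin hC hq (res M J) (res M' J) (fun i j => h i.1 j.1) h1
  have h3 : C (ir M (fun _ => q) J).range :=
    hC.base.of_injective _ _ (MonoidHom.ofInjective (ir_injective (adm_const M hq) hJ)).symm.toMonoidHom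
      (MulEquiv.injective _) h2
  exact hC.base.of_injective _ _ (Subgroup.inclusion ((Subgroup.closure_le _).2 hsJ))
    (Subgroup.inclusion_injective _) h3

end Run7.h161.AK
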