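import Mathlib

/-!
# Artin groups, of arbitrary rank, possibly with orders of the generators

In a Coxeter matrix the entry `0` stands for the label infinity, that is, for no relation.
-/

set_option autoImplicit false

namespace Run7.h161.AK

/-- the alternating product `a b a b ⋯` with `m` factors -/
def altProd {G : Type*} [Monoid G] (a b : G) (m : ℕ) : G :=
  ((List.range m).map (fun t => if Even t then a else b)).prod

/-- the relators: `s t s ⋯ = t s t ⋯` with `M s t` factors on both sides, and `s ^ q = 1` (no relation
if `q = 0`) -/
def rels {B : Type*} (M : CoxeterMatrix B) (q : ℕ) : Set (FreeGroup B) :=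
  {r | (∃ s t : B, r = altProd (FreeGroup.of s) (FreeGroup.of t) (M s t) *
    (altProd (FreeGroup.of t) (FreeGroup.of s) (M s t))⁻¹) ∨ ∃ s : B, r = FreeGroup.of s ^ q}

/-- For `q = 0` the Artin group with the Coxeter matrix `M`, for `q = 2` the Coxeter group, and in
general the quotient of the Artin group by the relations `s ^ q = 1` for the generators `s`. -/
abbrev Art {B : Type*} (M : CoxeterMatrix B) (q : ℕ) : Type _ := PresentedGroup (rels M q)

/-- All the labels of `M` are in `L`. -/
def Labels {B : Type*} (M : CoxeterMatrix B) (L : Set ℕ) : Prop :=
  ∀ s t : B, s ≠ t → M s t ∈ L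

end Run7.h161.AK
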