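import Pool.Agent.Run7.h161.AK.Defs
import Pool.Agent.Run7.h161.AK.Amal
import Pool.Agent.Run7.h161.AK.Eppa
import Pool.Agent.N77.CX.Main

/-!
# Extensions by Artin groups of arbitrary rank
-/

set_option autoImplicit false

namespace Run7.h161.AK

open Pool.Agent.K7.H87.FJ6
open Pool.Agent.Y110.FJ
open Pool.Agent.Y462.SS (Closed)
open Pool.Agent.N77.GP (MT il tt mt_pow mt_one tt_conj)
open Pool.Agent.N77.CX (realized_of)
open Pool.Agent.Helper741 (alt)

variable {C : ∀ (G : Type) [Group G], Prop}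

section inf

variable {B : Type} {M : CoxeterMatrix B} {p : B → ℕ}

open Classical in
/-- the map to the Artin group of a subset -/
noncomputable def prj (M : CoxeterMatrix B) (p : B → ℕ) (F : Set B) :
    FreeGroup B →* Sh (res M F) (p ∘ Subtype.val) :=
  FreeGroup.lift fun b => if h : b ∈ F then Sh.gen (res M F) (p ∘ Subtype.val) ⟨b, h⟩ else 1

theorem prj_of {F : Set B} {b : B} (h : b ∈ F) :
    prj M p F (FreeGroup.of b) = Sh.gen (res M F) (p ∘ Subtype.val) ⟨b, h⟩ := by
  unfold prj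
  rw [FreeGroup.lift_apply_of, dif_pos h]

/-- words which are relations in all large Artin groups of finite rank -/
def Kil (M : CoxeterMatrix B) (p : B → ℕ) : Subgroup (FreeGroup B) where
  carrier := {w | ∃ F0 : Set B, F0.Finite ∧ ∀ F : Set B, F0 ⊆ F → prj M p F w = 1}
  one_mem' := ⟨∅, Set.finite_empty, fun F _ => map_one _⟩
  mul_mem' := by
    rintro x y ⟨F1, h1, h1'⟩ ⟨F2, h2, h2'⟩
    refine ⟨F1 ∪ F2, h1.union h2, fun F hF => ?_⟩
    rw [map_mul, h1' F (Set.subset_union_left.trans hF), h2' F (Set.subset_union_right.trans hF),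
      one_mul]
  inv_mem' := by
    rintro x ⟨F1, h1, h1'⟩
    exact ⟨F1, h1, fun F hF => by rw [map_inv, h1' F hF, inv_one]⟩

theorem Kil_normal : (Kil M p).Normal := by
  refine ⟨?_⟩
  rintro x ⟨F1, h1, h1'⟩ g
  exact ⟨F1, h1, fun F hF => by rw [map_mul, map_mul, h1' F hF, mul_one, map_inv, mul_inv_cancel]⟩

theorem rels_le : Subgroup.normalClosure (Pool.Agent.K7.H87.FJ6.rels M p) ≤ Kil M p := by
  have := Kil_normal (M := M) (p := p)
  apply Subgroup.normalClosure_le_normal
  rintro r (⟨i, j, rfl⟩ | ⟨i, rfl⟩)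
  · refine ⟨{i, j}, Set.toFinite _, fun F hF => ?_⟩
    have hi : i ∈ F := hF (Set.mem_insert i _)
    have hj : j ∈ F := hF (Set.mem_insert_of_mem i rfl)
    rw [map_mul, map_inv, map_alt', map_alt', prj_of hi, prj_of hj, mul_inv_eq_one]
    exact Sh.rel (M := res M F) (p := p ∘ Subtype.val) ⟨i, hi⟩ ⟨j, hj⟩
  · refine ⟨{i}, Set.toFinite _, fun F hF => ?_⟩
    have hi : i ∈ F := hF rfl
    rw [map_pow, prj_of hi]
    exact Sh.pow (M := res M F) (p := p ∘ Subtype.val) ⟨i, hi⟩

/-- **standard parabolic subgroups of finite rank**, the rank of the group being arbitrary -/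
theorem ir_injective (h : Adm M p) {J : Set B} (hJ : J.Finite) : Function.Injective (ir M p J) := by
  refine (injective_iff_map_eq_one _).2 fun a ha => ?_
  obtain ⟨x, rfl⟩ := PresentedGroup.mk_surjective _ a
  have h1 : (ir M p J).comp (PresentedGroup.mk _) =
      (PresentedGroup.mk _).comp (FreeGroup.map (Subtype.val : J → B)) := by
    apply FreeGroup.ext_hom
    intro j
    show inc M p (Subtype.val : J → B) Subtype.val_injective
      (Sh.gen (res M J) (p ∘ Subtype.val) j) = PresentedGroup.mk _ (FreeGroup.map _ (FreeGroup.of j))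
    rw [inc_gen, FreeGroup.map.of]
    rfl
  have h2 := DFunLike.congr_fun h1 x
  rw [MonoidHom.comp_apply, MonoidHom.comp_apply, ha] at h2
  have h3 : FreeGroup.map (Subtype.val : J → B) x ∈
      Subgroup.normalClosure (Pool.Agent.K7.H87.FJ6.rels M p) := (QuotientGroup.eq_one_iff _).1 h2.symm
  obtain ⟨F0, hF0, h4⟩ := rels_le h3
  let F : Set B := F0 ∪ J
  have hFf : F.Finite := hF0.union hJ
  have : Finite F := hFf
  have hJF : J ⊆ F := Set.subset_union_right
  have h5 := h4 F Set.subset_union_left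
  let ι : J → F := Set.inclusion hJF
  let Φ : Sh (res M J) (p ∘ Subtype.val) →* Sh (res M F) (p ∘ Subtype.val) :=
    Sh.lift (fun j => Sh.gen (res M F) (p ∘ Subtype.val) (ι j)) (fun i j => Sh.rel (ι i) (ι j))
      (fun i => Sh.pow (ι i))
  have hΦ : ∀ j, Φ (Sh.gen _ _ j) = Sh.gen _ _ (ι j) := fun j => Sh.lift_gen _ _ _ _
  have hΦi : Function.Injective Φ :=
    inc_inj' (h.pull (Subtype.val : F → B) Subtype.val_injective) ι (Set.inclusion_injective hJF)
      (fun _ _ => rfl) (fun _ => rfl) Φ hΦ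
  have h6 : (prj M p F).comp (FreeGroup.map (Subtype.val : J → B)) =
      Φ.comp (PresentedGroup.mk _) := by
    apply FreeGroup.ext_hom
    intro j
    rw [MonoidHom.comp_apply, FreeGroup.map.of, prj_of (hJF j.2)]
    exact (hΦ j).symm
  have h7 := DFunLike.congr_fun h6 x
  rw [MonoidHom.comp_apply, MonoidHom.comp_apply, h5] at h7
  exact hΦi (by rw [← h7, map_one])

end inf

section auto

variable {T : Type} {M' : CoxeterMatrix T} {q : ℕ}

/-- the endomorphism given by a permutation of the generators -/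
noncomputable def tend (q : ℕ) (τ : Equiv.Perm T) (hτ : ∀ x y, M' (τ x) (τ y) = M' x y) :
    Sh M' (fun _ => q) →* Sh M' (fun _ => q) :=
  Sh.lift (fun x => Sh.gen M' (fun _ => q) (τ x)) (fun i j => by rw [← hτ i j]; exact Sh.rel _ _)
    (fun i => Sh.pow (τ i))

theorem tend_gen (τ : Equiv.Perm T) (hτ : ∀ x y, M' (τ x) (τ y) = M' x y) (i : T) :
    tend q τ hτ (Sh.gen M' (fun _ => q) i) = Sh.gen M' (fun _ => q) (τ i) := Sh.lift_gen _ _ _ _

/-- the automorphism given by a permutation of the generators -/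
noncomputable def taut (q : ℕ) (τ : Equiv.Perm T) (hτ : ∀ x y, M' (τ x) (τ y) = M' x y) :
    MulAut (Sh M' (fun _ => q)) :=
  MonoidHom.toMulEquiv (tend q τ hτ)
    (tend q τ.symm (fun x y => by rw [← hτ, τ.apply_symm_apply, τ.apply_symm_apply]))
    (Sh.hom_ext fun i => by
      rw [MonoidHom.comp_apply, tend_gen, tend_gen, τ.symm_apply_apply]
      rfl)
    (Sh.hom_ext fun i => by
      rw [MonoidHom.comp_apply, tend_gen, tend_gen, τ.apply_symm_apply]
      rfl)

theorem taut_gen (τ : Equiv.Perm T) (hτ : ∀ x y, M' (τ x) (τ y) = M' x y) (i : T) :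
    taut q τ hτ (Sh.gen M' (fun _ => q) i) = Sh.gen M' (fun _ => q) (τ i) :=
  tend_gen τ hτ i

theorem taut_pow_gen (τ : Equiv.Perm T) (hτ : ∀ x y, M' (τ x) (τ y) = M' x y) (k : ℕ) (i : T) :
    (taut q τ hτ ^ k) (Sh.gen M' (fun _ => q) i) = Sh.gen M' (fun _ => q) ((τ ^ k) i) := by
  induction k with
  | zero => simp
  | succ k ih =>
    rw [pow_succ', MulAut.mul_apply, ih, taut_gen, pow_succ']
    rfl

theorem taut_pow (τ : Equiv.Perm T) (hτ : ∀ x y, M' (τ x) (τ y) = M' x y) (k : ℕ)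
    (hk : τ ^ k = 1) : taut q τ hτ ^ k = 1 := by
  apply MulEquiv.toMonoidHom_injective
  apply Sh.hom_ext
  intro i
  have h := taut_pow_gen (q := q) τ hτ k i
  rw [hk] at h
  exact h

theorem C_taut (hC : ClosedE C) [Finite T] (hW : C (Sh M' (fun _ => q))) (τ : Equiv.Perm T)
    (hτ : ∀ x y, M' (τ x) (τ y) = M' x y) : C (MT (Sh M' (fun _ => q)) (taut q τ hτ)) := by
  have hfin : IsOfFinOrder τ := isOfFinOrder_of_finite τ
  refine mt_pow hC.base (k := orderOf τ) hfin.orderOf_pos ?_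
  rw [taut_pow τ hτ _ (pow_orderOf_eq_one τ)]
  exact mt_one hC.base hW

end auto

/-- exponents which are constant and even are admissible -/
theorem adm_const {B : Type} (M : CoxeterMatrix B) {q : ℕ} (hq : Even q) : Adm M (fun _ => q) :=
  ⟨fun _ => hq, fun _ _ _ => rfl⟩

/-- removal of relations from Artin groups of finite rank -/
theorem remove_fin (hC : ClosedE C) {q : ℕ} (hq : Even q) {T : Type} [Finite T]
    (M M' : CoxeterMatrix T) (h : ∀ i j, M i j = M' i j ∨ M i j = 0)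
    (hM' : C (Sh M' (fun _ => q))) : C (Sh M (fun _ => q)) :=
  remove_all hC (adm_const M' hq) hM' _ M h le_rfl

open Classical in
/-- all labels infinity are replaced by `l` -/
noncomputable def fill {T : Type} (M : CoxeterMatrix T) (l : ℕ) (hl : l ≠ 1) : CoxeterMatrix T where
  M := Matrix.of fun i j => if M i j = 0 then l else M i j
  isSymm := by
    ext i j
    simp only [Matrix.transpose_apply, Matrix.of_apply]
    rw [M.symmetric j i]
  diagonal i := by
    simp only [Matrix.of_apply]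
    rw [M.diagonal, if_neg one_ne_zero]
  off_diagonal i j h := by
    simp only [Matrix.of_apply]
    split_ifs
    · exact hl
    · exact M.off_diagonal i j h

theorem fill_apply {T : Type} (M : CoxeterMatrix T) (l : ℕ) (hl : l ≠ 1) (i j : T) :
    fill M l hl i j = if M i j = 0 then l else M i j := by
  classical
  show (if M i j = 0 then l else M i j) = _
  congr

/-- Artin groups of finite rank with labels in `L` or infinity -/
theorem all_fin (hC : ClosedE C) {q : ℕ} (hq : Even q) {L : Set ℕ} (hL : ∀ l ∈ L, 2 ≤ l)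
    (hne : L.Nonempty)
    (hfin : ∀ (S : Type) (_ : Finite S) (A : CoxeterMatrix S), Labels A L → C (Sh A (fun _ => q)))
    {T : Type} [Finite T] (M : CoxeterMatrix T) (hM : ∀ x y, x ≠ y → M x y = 0 ∨ M x y ∈ L) :
    C (Sh M (fun _ => q)) := by
  obtain ⟨l, hl⟩ := hne
  have hl1 : l ≠ 1 := by have := hL l hl; omega
  refine remove_fin hC hq M (fill M l hl1) (fun i j => ?_) (hfin T inferInstance _ ?_)
  · rw [fill_apply]
    split_ifs with h
    · exact Or.inr h
    · exact Or.inl rfl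
  · intro x y hxy
    rw [fill_apply]
    split_ifs with h
    · exact hl
    · exact (hM x y hxy).resolve_left h

section main

variable {G B : Type} [Group G] {N : Subgroup G} {M : CoxeterMatrix B} {q : ℕ}
  (e : Sh M (fun _ => q) ≃* N)

/-- the subgroup generated by some generators -/
def PJ (J : Set B) : Subgroup G := Subgroup.closure ((fun b => (e (Sh.gen M (fun _ => q) b) : G)) '' J)

theorem PJ_mono {J J' : Set B} (h : J ⊆ J') : PJ e J ≤ PJ e J' :=
  Subgroup.closure_mono (Set.image_mono h)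

theorem ex_supp {x : G} (hx : x ∈ N) : ∃ J : Set B, J.Finite ∧ x ∈ PJ e J := by
  obtain ⟨y, hy⟩ : ∃ y, (e y : G) = x := ⟨e.symm ⟨x, hx⟩, by rw [e.apply_symm_apply]⟩
  subst hy
  clear hx
  induction y using Sh.induction with
  | one => exact ⟨∅, Set.finite_empty, by rw [map_one]; exact one_mem _⟩
  | gen i => exact ⟨{i}, Set.finite_singleton i, Subgroup.subset_closure ⟨i, rfl, rfl⟩⟩
  | mul x y hx hy =>
    obtain ⟨J, hJ, h1⟩ := hx
    obtain ⟨J', hJ', h2⟩ := hy
    refine ⟨J ∪ J', hJ.union hJ', ?_⟩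
    rw [map_mul]
    exact mul_mem (PJ_mono e Set.subset_union_left h1) (PJ_mono e Set.subset_union_right h2)
  | inv x hx =>
    obtain ⟨J, hJ, h1⟩ := hx
    refine ⟨J, hJ, ?_⟩
    rw [map_inv]
    exact inv_mem h1

theorem ex_supp_fin {E : Set G} (hE : E.Finite) (hEN : E ⊆ N) :
    ∃ J : Set B, J.Finite ∧ ∀ x ∈ E, x ∈ PJ e J := by
  induction E, hE using Set.Finite.induction_on with
  | empty => exact ⟨∅, Set.finite_empty, fun x hx => absurd hx (Set.notMem_empty x)⟩
  | @insert a s _ _ ih =>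
    obtain ⟨S, hS, h1⟩ := ih (fun x hx => hEN (Set.mem_insert_of_mem _ hx))
    obtain ⟨S', hS', h2⟩ := ex_supp e (hEN (Set.mem_insert _ _))
    refine ⟨S ∪ S', hS.union hS', fun x hx => ?_⟩
    rcases hx with rfl | hx
    · exact PJ_mono e (Set.subset_union_right : S' ⊆ S ∪ S') h2
    · exact PJ_mono e (Set.subset_union_left : S ⊆ S ∪ S') (h1 x hx)

/-- **extensions by Artin groups** -/
theorem art_main (hC : ClosedE C) (hq : Even q) {L : Set ℕ} (hL : ∀ l ∈ L, 2 ≤ l)
    (hne : L.Nonempty)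
    (hfin : ∀ (S : Type) (_ : Finite S) (A : CoxeterMatrix S), Labels A L → C (Sh A (fun _ => q)))
    (hMs : ∀ x y, x ≠ y → M x y = 0 ∨ M x y ∈ L)
    [N.Normal] (Q : Subgroup G) [MulAction Q B] (hNQ : N ⊔ Q = ⊤)
    (hM : ∀ (m : Q) (b b' : B), M (m • b) (m • b') = M b b')
    (hconj : ∀ (m : Q) (b : B), (m : G) * (e (Sh.gen M (fun _ => q) b) : G) * (m : G)⁻¹ =
      e (Sh.gen M (fun _ => q) (m • b)))
    (hQ : C (G ⧸ N)) : C G := by
  refine Pool.Agent.R779.FJ.t_crit Pool.Agent.Y529.FJ.t_ext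
    (Pool.Agent.Y961.FJ.t_perm Pool.Agent.Y529.FJ.t_ext) C hC G N hQ fun g E hE hEN => ?_
  have hg : g ∈ N ⊔ Q := by
    rw [hNQ]
    exact Subgroup.mem_top g
  rw [Subgroup.mem_sup_of_normal_left] at hg
  obtain ⟨n, hn, m, hm, hnm⟩ := hg
  obtain ⟨J, hJ, hJE⟩ := ex_supp_fin e (hE.insert n) (Set.insert_subset hn hEN)
  obtain ⟨J', hJ'⟩ : ∃ J' : Set B, J' = J ∪ (fun b => (⟨m, hm⟩ : Q) • b) '' J := ⟨_, rfl⟩
  have hfinJ : J'.Finite := by
    rw [hJ']
    exact hJ.union (hJ.image _)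
  have : Finite J' := hfinJ
  have hJJ' : ∀ b ∈ J, b ∈ J' := fun b hb => by rw [hJ']; exact Or.inl hb
  have hmJ : ∀ b ∈ J, (⟨m, hm⟩ : Q) • b ∈ J' := fun b hb => by
    rw [hJ']
    exact Or.inr ⟨b, hb, rfl⟩
  obtain ⟨T, _, M', ι, τ, hι, hιM, hτ, hτι, hM'L⟩ := eppa L J' (res M J')
    (fun x y hxy => hMs x.1 y.1 (fun h => hxy (Subtype.ext h)))
    {x | (⟨m, hm⟩ : Q) • x.1 ∈ J'} (fun x => ⟨(⟨m, hm⟩ : Q) • x.1.1, x.2⟩)
    (fun x y hxy => Subtype.ext (Subtype.ext (MulAction.injective (⟨m, hm⟩ : Q)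
      (congrArg Subtype.val hxy))))
    (fun x y => hM ⟨m, hm⟩ x.1.1 y.1.1)
  -- the embeddings of the finitely generated Artin group
  obtain ⟨a, ha⟩ : ∃ a : Sh (res M J') (fun _ => q) →* G,
    a = N.subtype.comp (e.toMonoidHom.comp (ir M (fun _ => q) J')) := ⟨_, rfl⟩
  have hainj : Function.Injective a := by
    rw [ha]
    exact Subtype.val_injective.comp (e.injective.comp (ir_injective (adm_const M hq) hfinJ))
  have has : ∀ b : J', a (Sh.gen (res M J') (fun _ => q) b) = (e (Sh.gen M (fun _ => q) b.1) : G) := by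
    intro b
    rw [ha]
    show ((e (inc M (fun _ => q) (Subtype.val : J' → B) Subtype.val_injective
      (Sh.gen (pull M (Subtype.val : J' → B) Subtype.val_injective)
        ((fun _ => q) ∘ Subtype.val) b)) : N) : G) = _
    rw [inc_gen]
  obtain ⟨β, hβs⟩ : ∃ β : Sh (res M J') (fun _ => q) →* Sh M' (fun _ => q),
      ∀ b, β (Sh.gen (res M J') (fun _ => q) b) = Sh.gen M' (fun _ => q) (ι b) :=
    ⟨Sh.lift (fun b => Sh.gen M' (fun _ => q) (ι b))
      (fun i j => by rw [← hιM i j]; exact Sh.rel _ _) (fun i => Sh.pow (ι i)),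
      fun b => Sh.lift_gen _ _ _ _⟩
  have hβinj : Function.Injective β :=
    inc_inj' (adm_const M' hq) ι hι (fun x y => (hιM x y).symm) (fun _ => rfl) β hβs
  -- conjugation by `m`
  have key : ∀ x ∈ PJ e J, ∃ w w' : Sh (res M J') (fun _ => q), a w = x ∧ a w' = m * x * m⁻¹ ∧
      β w' = taut q τ hτ (β w) := by
    intro x hx
    induction hx using Subgroup.closure_induction with
    | mem x hx =>
      obtain ⟨b, hb, rfl⟩ := hx
      refine ⟨Sh.gen _ _ ⟨b, hJJ' b hb⟩,
        Sh.gen _ _ ⟨(⟨m, hm⟩ : Q) • b, hmJ b hb⟩, has _, ?_, ?_⟩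
      · rw [has]
        exact (hconj ⟨m, hm⟩ b).symm
      · rw [hβs, hβs, taut_gen]
        congr 1
        exact (hτι ⟨⟨b, hJJ' b hb⟩, hmJ b hb⟩).symm
    | one => exact ⟨1, 1, by simp, by simp, by simp⟩
    | mul x y _ _ hx hy =>
      obtain ⟨w, w', h1, h2, h3⟩ := hx
      obtain ⟨v, v', h4, h5, h6⟩ := hy
      refine ⟨w * v, w' * v', by rw [map_mul, h1, h4], ?_, by rw [map_mul, map_mul, map_mul, h3, h6]⟩
      rw [map_mul, h2, h5]
      group
    | inv x _ hx =>
      obtain ⟨w, w', h1, h2, h3⟩ := hx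
      refine ⟨w⁻¹, w'⁻¹, by rw [map_inv, h1], ?_, by rw [map_inv, map_inv, map_inv, h3]⟩
      rw [map_inv, h2]
      group
  have hES : E ⊆ (a.range : Set G) := by
    intro x hx
    obtain ⟨w, -, h1, -⟩ := key x (hJE x (Set.mem_insert_of_mem n hx))
    exact ⟨w, h1⟩
  have hnS : n ∈ a.range := by
    obtain ⟨w, -, h1, -⟩ := key n (hJE n (Set.mem_insert n E))
    exact ⟨w, h1⟩
  have hmE : ∀ x ∈ E, m * x * m⁻¹ ∈ a.range := by
    intro x hx
    obtain ⟨w, w', h1, h2, -⟩ := key x (hJE x (Set.mem_insert_of_mem n hx))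
    exact ⟨w', h2⟩
  have hsymm : ∀ (w : Sh (res M J') (fun _ => q)) (x : G) (hx : x ∈ a.range), a w = x →
      (MonoidHom.ofInjective hainj).symm ⟨x, hx⟩ = w := by
    intro w x hx hw
    rw [MulEquiv.symm_apply_eq]
    apply Subtype.ext
    exact hw.symm
  have hCT : C (Sh M' (fun _ => q)) := all_fin hC hq hL hne hfin M' hM'L
  refine realized_of a.range hnm.symm hES hnS hmE (C_taut hC hCT τ hτ)
    ((il (taut q τ hτ)).comp (β.comp (MonoidHom.ofInjective hainj).symm.toMonoidHom)) ?_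
    (tt (taut q τ hτ)) ?_
  · exact SemidirectProduct.inl_injective.comp
      (hβinj.comp (MonoidHom.ofInjective hainj).symm.injective)
  · intro x hx
    obtain ⟨w, w', h1, h2, h3⟩ := key x (hJE x (Set.mem_insert_of_mem n hx))
    show il _ (β ((MonoidHom.ofInjective hainj).symm _)) =
      tt _ * il _ (β ((MonoidHom.ofInjective hainj).symm _)) * (tt _)⁻¹
    rw [hsymm w x _ h1, hsymm w' _ _ h2, tt_conj, h3]

end main

end Run7.h161.AK
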